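import Pool.Agent.Helper53.CPFinal

set_option autoImplicit false

namespace Pool.Agent.Results.MP_53b42b_nt.Unbounded

/-- The formal power series `1 / (1 - x ^ q) = ∑_{q ∣ j} x ^ j` (for `q ≥ 1`). -/
noncomputable def invOneSubXPow (q : ℕ) : PowerSeries ℤ :=
  PowerSeries.mk fun j => if q ∣ j then 1 else 0

/-- `S k m n` is the coefficient of `x ^ n` in
`(1 - x) ^ (-m) * ∏_{i ≥ 0} (1 - x ^ (k ^ i)) ^ (-m (k - 1))`.
For `k ≥ 2` only the factors with `i ≤ n` contribute to the coefficient of `x ^ n`,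
because `n < k ^ i` for `i > n`. -/
noncomputable def S (k m n : ℕ) : ℤ :=
  PowerSeries.coeff n (invOneSubXPow 1 ^ m *
    ∏ i ∈ Finset.range (n + 1), invOneSubXPow (k ^ i) ^ (m * (k - 1)))

/-- For every `m ≡ 6 (mod 8)` the numbers `S_{4,m}(n)` are divisible by arbitrarily high powers
of `4`. -/
theorem result : ∀ m : ℕ, m % 8 = 6 → ∀ B : ℕ, ∃ n : ℕ, (4 : ℤ) ^ B ∣ S 4 m n := by
  intro m hm B
  exact Pool.Agent.Helper53.CP.main m hm B

end Pool.Agent.Results.MP_53b42b_nt.Unbounded
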